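import Pool.Agent.H95.AD.TargetsU

/-!
Board adu_modules, row LBD: the mean square of a sum with fixed coefficients.
-/

set_option autoImplicit false

namespace Pool.Agent.H40.AD

open Pool.Agent.H31.CN Pool.Agent.H95.AD

theorem Bb_nonneg (ε : ℝ) (a e m Y j d : ℕ) : 0 ≤ Bb ε a e m Y j d := by
  unfold Bb
  split_ifs with h
  · positivity
  · exact le_refl _

theorem pf_LBD (hDEC : T_DEC) (hBLK : T_BLK) (hBSM : T_BSM) (hMIK : T_MIK) : T_LBD := by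
  intro ε hε hε1
  obtain ⟨C1, hC1, h1⟩ := hBLK (ε / 3) (by positivity) (by linarith)
  obtain ⟨C2, hC2, h2⟩ := hBSM (ε / 3) (by positivity) (by linarith)
  refine ⟨2 * (C1 * C2) ^ 2, by positivity, ?_⟩
  intro a e m Y K β ha he hm hY hK hmae hCB
  obtain ⟨hs, hB⟩ := h2 a e m Y ha he hm hY hmae
  have hb0 : ∀ x : ℕ × ℕ, 0 ≤ C1 * K * Bb (ε / 3) a e m Y x.1 x.2 := fun x =>
    mul_nonneg (mul_nonneg hC1.le hK) (Bb_nonneg _ _ _ _ _ _ _)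
  have h3 := hMIK (ℕ × ℕ) (Finset.Ico Y (2 * Y)) (fun x D => ‖Fb β a x.1 x.2 D‖)
    (fun x => C1 * K * Bb (ε / 3) a e m Y x.1 x.2) hb0 (hs.mul_left _)
    (fun x => h1 a e m Y x.1 x.2 K β ha he hm hY hK hCB)
  obtain ⟨h4, h5⟩ := h3
  simp only [abs_norm] at h4 h5
  have h6 : ∑ D ∈ Finset.Ico Y (2 * Y), ‖∑' i : ℕ × ℕ, (β i.1 i.2 : ℂ) * rs i.2 i.1 D‖ ^ 2 ≤
      ∑ D ∈ Finset.Ico Y (2 * Y), (∑' x : ℕ × ℕ, ‖Fb β a x.1 x.2 D‖) ^ 2 := by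
    refine Finset.sum_le_sum fun D hD => ?_
    rw [(hDEC a e m Y K β ha he hm hY hK hCB D).2 (h4 D hD)]
    exact pow_le_pow_left₀ (norm_nonneg _) (norm_tsum_le_tsum_norm (h4 D hD)) 2
  refine h6.trans (h5.trans ?_)
  rw [tsum_mul_left]
  have hY1 : (1 : ℝ) ≤ Y := by exact_mod_cast hY
  have hY0 : (0 : ℝ) < Y := by linarith
  have he1 : (1 : ℝ) ≤ e := by exact_mod_cast he
  have he0 : (0 : ℝ) < e := by linarith
  have hm0 : (0 : ℝ) < m := by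
    have : (1 : ℝ) ≤ m := by exact_mod_cast hm
    linarith
  set S : ℝ := ∑' x : ℕ × ℕ, Bb (ε / 3) a e m Y x.1 x.2 with hS
  have hS0 : 0 ≤ S := tsum_nonneg fun x => Bb_nonneg _ _ _ _ _ _ _
  set z : ℝ := a / Real.sqrt Y with hz
  have hz0 : 0 ≤ z := by positivity
  have h7 : S ^ 2 ≤ (C2 * (Y : ℝ) ^ (1 / 4 + ε / 3 / 4) / e *
      ((m : ℝ) / (e : ℝ) ^ 2) ^ (3 * (ε / 3) / 2) * (1 + Real.sqrt z)) ^ 2 :=
    pow_le_pow_left₀ hS0 hB 2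
  have e1 : ((Y : ℝ) ^ (1 / 4 + ε / 3 / 4)) ^ 2 ≤ (Y : ℝ) ^ (1 / 2 + ε) := by
    rw [← Real.rpow_natCast, ← Real.rpow_mul hY0.le]
    refine Real.rpow_le_rpow_of_exponent_le hY1 ?_
    push_cast
    linarith
  have e2 : (((m : ℝ) / (e : ℝ) ^ 2) ^ (3 * (ε / 3) / 2)) ^ 2 / (e : ℝ) ^ 2 ≤
      (m : ℝ) ^ ε * (e : ℝ) ^ (-(2 + ε)) := by
    have e3 : (((m : ℝ) / (e : ℝ) ^ 2) ^ (3 * (ε / 3) / 2)) ^ 2 = ((m : ℝ) / (e : ℝ) ^ 2) ^ ε := by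
      rw [← Real.rpow_natCast, ← Real.rpow_mul (by positivity)]
      congr 1
      push_cast
      ring
    rw [e3, Real.div_rpow hm0.le (by positivity), Real.rpow_neg he0.le,
      Real.rpow_add he0, Real.rpow_two, div_div, ← div_eq_mul_inv]
    refine div_le_div_of_nonneg_left (Real.rpow_nonneg hm0.le _) (by positivity) ?_
    rw [mul_comm]
    refine mul_le_mul_of_nonneg_right ?_ (by positivity)
    refine Real.rpow_le_rpow he0.le ?_ hε.le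
    nlinarith
  have e4 : (1 + Real.sqrt z) ^ 2 ≤ 2 * (1 + z) := by
    have h8 := Real.sq_sqrt hz0
    nlinarith [sq_nonneg (1 - Real.sqrt z)]
  calc (C1 * K * S) ^ 2 = C1 ^ 2 * K ^ 2 * S ^ 2 := by ring
    _ ≤ C1 ^ 2 * K ^ 2 * (C2 * (Y : ℝ) ^ (1 / 4 + ε / 3 / 4) / e *
        ((m : ℝ) / (e : ℝ) ^ 2) ^ (3 * (ε / 3) / 2) * (1 + Real.sqrt z)) ^ 2 :=
        mul_le_mul_of_nonneg_left h7 (by positivity)
    _ = C1 ^ 2 * K ^ 2 * C2 ^ 2 * (((Y : ℝ) ^ (1 / 4 + ε / 3 / 4)) ^ 2) *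
        ((((m : ℝ) / (e : ℝ) ^ 2) ^ (3 * (ε / 3) / 2)) ^ 2 / (e : ℝ) ^ 2) *
        (1 + Real.sqrt z) ^ 2 := by
        field_simp
    _ ≤ C1 ^ 2 * K ^ 2 * C2 ^ 2 * ((Y : ℝ) ^ (1 / 2 + ε)) *
        ((m : ℝ) ^ ε * (e : ℝ) ^ (-(2 + ε))) * (2 * (1 + z)) := by
        gcongr
    _ = 2 * (C1 * C2) ^ 2 * K ^ 2 * (Y : ℝ) ^ (1 / 2 + ε) * (m : ℝ) ^ ε *
        (e : ℝ) ^ (-(2 + ε)) * (1 + z) := by ring

end Pool.Agent.H40.AD
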