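import Pool.Agent.H95.AD.TargetsU

/-!
Board adu_modules, row SPC: the fractions are well spaced.
-/

set_option autoImplicit false

namespace Pool.Agent.H40.AD

open Pool.Agent.H31.CN Pool.Agent.H95.AD

theorem pf_SPC : T_SPC := by
  intro a d A A' k k' ha hd hA hA' haA haA' hk hk' hlt hlt' hne
  have hA0 : (0 : ℝ) < A := by exact_mod_cast hA
  have hA0' : (0 : ℝ) < A' := by exact_mod_cast hA'
  set m : ℤ := round ((k : ℝ) / (4 * A) - (k' : ℝ) / (4 * A')) with hm
  set J : ℤ := (k : ℤ) * A' - k' * A - 4 * m * A * A' with hJdef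
  have e1 : (k : ℝ) / (4 * A) - (k' : ℝ) / (4 * A') - m = (J : ℝ) / (4 * A * A') := by
    rw [hJdef]
    push_cast
    field_simp
  have hdk : (d : ℤ) ∣ k := by
    rw [← hk]
    exact_mod_cast Nat.gcd_dvd_left k A
  have hdk' : (d : ℤ) ∣ k' := by
    rw [← hk']
    exact_mod_cast Nat.gcd_dvd_left k' A'
  have hdA : (d : ℤ) ∣ A := by
    rw [← hk]
    exact_mod_cast Nat.gcd_dvd_right k A
  have hdA' : (d : ℤ) ∣ A' := by
    rw [← hk']
    exact_mod_cast Nat.gcd_dvd_right k' A'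
  have haA1 : (a : ℤ) ∣ A := by exact_mod_cast haA
  have haA1' : (a : ℤ) ∣ A' := by exact_mod_cast haA'
  have hdvd : ((d : ℤ) * a) ∣ J := by
    rw [hJdef]
    refine dvd_sub (dvd_sub (mul_dvd_mul hdk haA1') (mul_dvd_mul hdk' haA1)) ?_
    rw [mul_assoc (4 * m) (A : ℤ) (A' : ℤ)]
    exact Dvd.dvd.mul_left (mul_dvd_mul hdA haA1') _
  have hJ : J ≠ 0 := by
    intro h0
    obtain ⟨A1, hA1⟩ := hdA
    obtain ⟨A1', hA1'⟩ := hdA'
    obtain ⟨k1, hk1⟩ := hdk
    obtain ⟨k1', hk1'⟩ := hdk'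
    have hd0 : (0 : ℤ) < d := by exact_mod_cast hd
    have hdne : (d : ℤ) ≠ 0 := ne_of_gt hd0
    have hAz : (0 : ℤ) < A := by exact_mod_cast hA
    have hAz' : (0 : ℤ) < A' := by exact_mod_cast hA'
    have hA1p : 0 < A1 := by
      rw [hA1] at hAz
      exact (mul_pos_iff_of_pos_left hd0).1 hAz
    have hA1p' : 0 < A1' := by
      rw [hA1'] at hAz'
      exact (mul_pos_iff_of_pos_left hd0).1 hAz'
    have c1 : IsCoprime k1 A1 := by
      have h1 : (Int.gcd (k : ℤ) (A : ℤ) : ℤ) = d := by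
        rw [Int.gcd_natCast_natCast, hk]
      rw [hk1, hA1, Int.gcd_mul_left] at h1
      rw [Int.isCoprime_iff_gcd_eq_one]
      rw [Int.natAbs_natCast, Nat.cast_inj] at h1
      exact Nat.eq_of_mul_eq_mul_left hd (by rw [h1, mul_one])
    have c2 : IsCoprime k1' A1' := by
      have h1 : (Int.gcd (k' : ℤ) (A' : ℤ) : ℤ) = d := by
        rw [Int.gcd_natCast_natCast, hk']
      rw [hk1', hA1', Int.gcd_mul_left] at h1
      rw [Int.isCoprime_iff_gcd_eq_one]
      rw [Int.natAbs_natCast, Nat.cast_inj] at h1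
      exact Nat.eq_of_mul_eq_mul_left hd (by rw [h1, mul_one])
    have e2 : k1 * A1' - k1' * A1 = 4 * m * A1 * A1' := by
      have h3 : (d : ℤ) * d * (k1 * A1' - k1' * A1) = (d : ℤ) * d * (4 * m * A1 * A1') := by
        rw [hJdef, hk1, hk1', hA1, hA1'] at h0
        linear_combination h0
      exact mul_left_cancel₀ (mul_ne_zero hdne hdne) h3
    have d1 : A1 ∣ A1' := by
      have h4 : A1 ∣ k1 * A1' := ⟨k1' + 4 * m * A1', by linear_combination e2⟩
      exact c1.symm.dvd_of_dvd_mul_left h4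
    have d2 : A1' ∣ A1 := by
      have h4 : A1' ∣ k1' * A1 := ⟨k1 - 4 * m * A1, by linear_combination -e2⟩
      exact c2.symm.dvd_of_dvd_mul_left h4
    have e3 : A1 = A1' := Int.dvd_antisymm hA1p.le hA1p'.le d1 d2
    have e4 : A = A' := by
      have : (A : ℤ) = A' := by rw [hA1, hA1', e3]
      exact_mod_cast this
    subst e3
    have e5 : k1 - k1' = 4 * m * A1 := by
      have h5 : A1 * (k1 - k1') = A1 * (4 * m * A1) := by linear_combination e2
      exact mul_left_cancel₀ (ne_of_gt hA1p) h5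
    have b1 : k1 < 4 * A1 := by
      have h6 : (k : ℤ) < 4 * A := by exact_mod_cast hlt
      rw [hk1, hA1] at h6
      have h7 : (d : ℤ) * k1 < d * (4 * A1) := by linarith
      exact lt_of_mul_lt_mul_left h7 hd0.le
    have b2 : k1' < 4 * A1 := by
      have h6 : (k' : ℤ) < 4 * A' := by exact_mod_cast hlt'
      rw [hk1', hA1'] at h6
      have h7 : (d : ℤ) * k1' < d * (4 * A1) := by linarith
      exact lt_of_mul_lt_mul_left h7 hd0.le
    have b3 : 0 ≤ k1 := by
      have h6 : (0 : ℤ) ≤ k := Int.natCast_nonneg _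
      rw [hk1] at h6
      exact nonneg_of_mul_nonneg_right h6 hd0
    have b4 : 0 ≤ k1' := by
      have h6 : (0 : ℤ) ≤ k' := Int.natCast_nonneg _
      rw [hk1'] at h6
      exact nonneg_of_mul_nonneg_right h6 hd0
    have hm0 : m = 0 := by
      rcases lt_trichotomy m 0 with h7 | h7 | h7
      · nlinarith
      · exact h7
      · nlinarith
    have e6 : k1 = k1' := by
      rw [hm0] at e5
      linarith
    apply hne
    have e7 : k = k' := by
      have : (k : ℤ) = k' := by rw [hk1, hk1', e6]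
      exact_mod_cast this
    rw [e4, e7]
  have hle : (d : ℤ) * a ≤ |J| := Int.le_of_dvd (abs_pos.2 hJ) ((dvd_abs _ _).2 hdvd)
  have hle' : (d : ℝ) * a ≤ |(J : ℝ)| := by
    have : ((((d : ℤ) * a : ℤ)) : ℝ) ≤ ((|J| : ℤ) : ℝ) := by exact_mod_cast hle
    push_cast at this
    exact this
  have hpos : (0 : ℝ) < 4 * A * A' := by positivity
  unfold nd
  rw [← hm, e1, abs_div, abs_of_pos hpos]
  exact div_le_div_of_nonneg_right hle' hpos.le

end Pool.Agent.H40.AD
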